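import Pool.Agent.X228.MV.Defs

/-!
# The shuffle model: algebra
-/

namespace Pool.Agent.X228.MV

open Finset

/-- Elements: functions of the set of nodes. -/
abbrev El := Finset ℝ → ℝ

/-- Left multiplication by a letter. -/
noncomputable def cons (φ : ℝ → ℝ) (H : El) : El := fun s =>
  ∑ x ∈ s, φ x * (∏ y ∈ s.erase x, f x y) * H (s.erase x)

/-- Left multiplication by a two-letter element. -/
noncomputable def cons2 (K : ℝ → ℝ → ℝ) (H : El) : El := fun s =>
  ∑ x ∈ s, ∑ z ∈ s.erase x,
    K x z * f x z * ((∏ y ∈ (s.erase x).erase z, (f x y * f z y)) * H ((s.erase x).erase z))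

/-- Multiplication of all letters by a function. -/
noncomputable def mulG (g : ℝ → ℝ) (H : El) : El := fun s => (∏ x ∈ s, g x) * H s

theorem F_nil : F [] = fun s : Finset ℝ => if s = ∅ then (1 : ℝ) else 0 := by
  funext s; simp [F]

theorem F_cons (φ : ℝ → ℝ) (w : List (ℝ → ℝ)) : F (φ :: w) = cons φ (F w) := by
  funext s; simp [F, cons]

theorem cons_congr {φ ψ : ℝ → ℝ} {H G : El} {s : Finset ℝ} (h : ∀ x ∈ s, φ x = ψ x)
    (h' : ∀ x ∈ s, H (s.erase x) = G (s.erase x)) : cons φ H s = cons ψ G s := by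
  unfold cons
  refine sum_congr rfl fun x hx => ?_
  rw [h x hx, h' x hx]

theorem cons_cons (φ ψ : ℝ → ℝ) (H : El) :
    cons φ (cons ψ H) = cons2 (fun a b => φ a * ψ b) H := by
  funext s
  unfold cons cons2
  refine sum_congr rfl fun x hx => ?_
  rw [mul_sum]
  refine sum_congr rfl fun z hz => ?_
  rw [← mul_prod_erase (s.erase x) (f x) hz, prod_mul_distrib]
  ring

theorem cons2_two (K : ℝ → ℝ → ℝ) (H : El) (s : Finset ℝ) :
    2 * cons2 K H s = ∑ x ∈ s, ∑ z ∈ s.erase x, (K x z * f x z + K z x * f z x) *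
      ((∏ y ∈ (s.erase x).erase z, (f x y * f z y)) * H ((s.erase x).erase z)) := by
  have hsw : cons2 K H s = ∑ x ∈ s, ∑ z ∈ s.erase x, (K z x * f z x) *
      ((∏ y ∈ (s.erase x).erase z, (f x y * f z y)) * H ((s.erase x).erase z)) := by
    unfold cons2
    rw [sum_comm' (t' := s) (s' := fun x => s.erase x)]
    · refine sum_congr rfl fun x hx => sum_congr rfl fun z hz => ?_
      rw [erase_right_comm]
      congr 2
      exact prod_congr rfl fun y hy => mul_comm _ _
    · intro x y
      simp only [mem_erase]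
      constructor
      · rintro ⟨h1, h2, h3⟩; exact ⟨⟨fun h => h2 h.symm, h1⟩, h3⟩
      · rintro ⟨⟨h1, h2⟩, h3⟩; exact ⟨h2, fun h => h1 h.symm, h3⟩
  rw [two_mul]
  nth_rewrite 2 [hsw]
  unfold cons2
  rw [← sum_add_distrib]
  refine sum_congr rfl fun x hx => ?_
  rw [← sum_add_distrib]
  refine sum_congr rfl fun z hz => ?_
  ring

theorem cons2_congr {K K' : ℝ → ℝ → ℝ} {H : El} {s : Finset ℝ}
    (h : ∀ a ∈ s, ∀ b ∈ s, a ≠ b →
      K a b * f a b + K b a * f b a = K' a b * f a b + K' b a * f b a) :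
    cons2 K H s = cons2 K' H s := by
  have h2 : 2 * cons2 K H s = 2 * cons2 K' H s := by
    rw [cons2_two, cons2_two]
    refine sum_congr rfl fun x hx => sum_congr rfl fun z hz => ?_
    rw [h x hx z (mem_of_mem_erase hz) (fun e => (mem_erase.1 hz).1 e.symm)]
  linarith

theorem cons2_congr' {K : ℝ → ℝ → ℝ} {H G : El} {s : Finset ℝ}
    (h : ∀ x ∈ s, ∀ z ∈ s.erase x, H ((s.erase x).erase z) = G ((s.erase x).erase z)) :
    cons2 K H s = cons2 K G s := by
  unfold cons2
  refine sum_congr rfl fun x hx => sum_congr rfl fun z hz => ?_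
  rw [h x hx z hz]

theorem cons2_lin (a b : ℝ) (K K' : ℝ → ℝ → ℝ) (H : El) (s : Finset ℝ) :
    cons2 (fun x y => a * K x y + b * K' x y) H s = a * cons2 K H s + b * cons2 K' H s := by
  unfold cons2
  rw [mul_sum, mul_sum, ← sum_add_distrib]
  refine sum_congr rfl fun x hx => ?_
  rw [mul_sum, mul_sum, ← sum_add_distrib]
  refine sum_congr rfl fun x hx => ?_
  ring

theorem cons2_smul (a : ℝ) (K : ℝ → ℝ → ℝ) (H : El) (s : Finset ℝ) :
    cons2 (fun x y => a * K x y) H s = a * cons2 K H s := by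
  unfold cons2
  rw [mul_sum]
  refine sum_congr rfl fun x hx => ?_
  rw [mul_sum]
  refine sum_congr rfl fun x hx => ?_
  ring

theorem cons_lin (a b : ℝ) (φ ψ : ℝ → ℝ) (H : El) (s : Finset ℝ) :
    cons (fun x => a * φ x + b * ψ x) H s = a * cons φ H s + b * cons ψ H s := by
  unfold cons
  rw [mul_sum, mul_sum, ← sum_add_distrib]
  refine sum_congr rfl fun x hx => ?_
  ring

theorem cons_smul (a : ℝ) (φ : ℝ → ℝ) (H : El) (s : Finset ℝ) :
    cons φ (fun t => a * H t) s = a * cons φ H s := by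
  unfold cons
  rw [mul_sum]
  refine sum_congr rfl fun x hx => ?_
  ring

theorem cons_add (φ : ℝ → ℝ) (H G : El) (s : Finset ℝ) :
    cons φ (fun t => H t + G t) s = cons φ H s + cons φ G s := by
  unfold cons
  rw [← sum_add_distrib]
  refine sum_congr rfl fun x hx => ?_
  ring

theorem mulG_cons (g φ : ℝ → ℝ) (H : El) (s : Finset ℝ) :
    mulG g (cons φ H) s = cons (fun x => g x * φ x) (mulG g H) s := by
  unfold mulG cons
  rw [mul_sum]
  refine sum_congr rfl fun x hx => ?_
  rw [← mul_prod_erase s g hx]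
  ring

/-- Sum over triples of distinct elements. -/
noncomputable def T3 (s : Finset ℝ) (G : ℝ → ℝ → ℝ → ℝ) : ℝ :=
  ∑ x ∈ s, ∑ z ∈ s.erase x, ∑ w ∈ (s.erase x).erase z, G x z w

theorem T3_swap12 (s : Finset ℝ) (G : ℝ → ℝ → ℝ → ℝ) : T3 s G = T3 s fun x z w => G z x w := by
  unfold T3
  rw [sum_comm' (t' := s) (s' := fun x => s.erase x)]
  · refine sum_congr rfl fun x hx => sum_congr rfl fun z hz => ?_
    rw [erase_right_comm]
  · intro x y
    simp only [mem_erase]
    constructor
    · rintro ⟨h1, h2, h3⟩; exact ⟨⟨fun h => h2 h.symm, h1⟩, h3⟩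
    · rintro ⟨⟨h1, h2⟩, h3⟩; exact ⟨h2, fun h => h1 h.symm, h3⟩

theorem T3_swap23 (s : Finset ℝ) (G : ℝ → ℝ → ℝ → ℝ) : T3 s G = T3 s fun x z w => G x w z := by
  unfold T3
  refine sum_congr rfl fun x hx => ?_
  rw [sum_comm' (t' := s.erase x) (s' := fun y => (s.erase x).erase y)]
  intro a b
  simp only [mem_erase]
  tauto

theorem T3_rot (s : Finset ℝ) (G : ℝ → ℝ → ℝ → ℝ) : T3 s G = T3 s fun x z w => G z w x := by
  rw [T3_swap23, T3_swap12]

theorem T3_add (s : Finset ℝ) (G G' : ℝ → ℝ → ℝ → ℝ) :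
    T3 s G + T3 s G' = T3 s fun x z w => G x z w + G' x z w := by
  unfold T3
  simp only [sum_add_distrib]

theorem cyc_id {a b c : ℝ} (hab : a ≠ b) (hac : a ≠ c) (hbc : b ≠ c) :
    f a b * f a c + f b c * f b a + f c a * f c b = 0 := by
  unfold f
  have h1 : b - a ≠ 0 := sub_ne_zero.2 hab.symm
  have h2 : c - a ≠ 0 := sub_ne_zero.2 hac.symm
  have h3 : c - b ≠ 0 := sub_ne_zero.2 hbc.symm
  have h4 : a - b ≠ 0 := sub_ne_zero.2 hab
  have h5 : a - c ≠ 0 := sub_ne_zero.2 hac
  have h6 : b - c ≠ 0 := sub_ne_zero.2 hbc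
  have e4 : a - b = -(b - a) := by ring
  have e5 : a - c = -(c - a) := by ring
  have e6 : b - c = -(c - b) := by ring
  rw [e4, e5, e6]
  field_simp
  ring

theorem f_add {a b : ℝ} (hab : a ≠ b) : f a b + f b a = 1 := by
  unfold f
  have h1 : b - a ≠ 0 := sub_ne_zero.2 hab.symm
  have e4 : a - b = -(b - a) := by ring
  rw [e4]
  field_simp
  ring

/-- The cube of a letter is zero. -/
theorem cube (φ : ℝ → ℝ) (H : El) (s : Finset ℝ) : cons φ (cons φ (cons φ H)) s = 0 := by
  set Y : ℝ → ℝ → ℝ → ℝ := fun x z w => φ x * φ z * φ w *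
    ((∏ y ∈ ((s.erase x).erase z).erase w, (f x y * f z y * f w y)) *
      H (((s.erase x).erase z).erase w)) with hY
  have h2 : 2 * cons φ (cons φ (cons φ H)) s = T3 s fun x z w => f x z * f x w * Y x z w := by
    rw [cons_cons φ φ H]
    unfold cons T3
    rw [mul_sum]
    refine sum_congr rfl fun x hx => ?_
    have := cons2_two (fun a b => φ a * φ b) H (s.erase x)
    rw [show 2 * (φ x * (∏ y ∈ s.erase x, f x y) * cons2 (fun a b => φ a * φ b) H (s.erase x))
      = φ x * (∏ y ∈ s.erase x, f x y) * (2 * cons2 (fun a b => φ a * φ b) H (s.erase x)) by ring,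
      this, mul_sum]
    refine sum_congr rfl fun z hz => ?_
    rw [mul_sum]
    refine sum_congr rfl fun w hw => ?_
    have hzw : z ≠ w := fun e => (mem_erase.1 hw).1 e.symm
    have h1 : φ z * φ w * f z w + φ w * φ z * f w z = φ z * φ w := by
      rw [show φ z * φ w * f z w + φ w * φ z * f w z = φ z * φ w * (f z w + f w z) by ring,
        f_add hzw, mul_one]
    rw [h1, ← mul_prod_erase (s.erase x) (f x) hz, ← mul_prod_erase _ (f x) hw]
    simp only [hY, prod_mul_distrib]
    ring
  have hsym : ∀ x z w, Y z w x = Y x z w := by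
    intro x z w
    simp only [hY]
    have e1 : ((s.erase z).erase w).erase x = ((s.erase x).erase z).erase w := by
      rw [erase_right_comm (a := w) (b := x), erase_right_comm (a := z) (b := x)]
    rw [e1]
    have e2 : ∏ y ∈ ((s.erase x).erase z).erase w, (f z y * f w y * f x y) =
      ∏ y ∈ ((s.erase x).erase z).erase w, (f x y * f z y * f w y) :=
      prod_congr rfl fun y _ => by ring
    rw [e2]
    ring
  have h3 : 3 * (2 * cons φ (cons φ (cons φ H)) s) = 0 := by
    have ha : (T3 s fun x z w => f x z * f x w * Y x z w) =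
        T3 s fun x z w => f z w * f z x * Y x z w := by
      rw [T3_rot]
      congr 1
      funext x z w
      rw [hsym]
    have hb : (T3 s fun x z w => f x z * f x w * Y x z w) =
        T3 s fun x z w => f w x * f w z * Y x z w := by
      rw [ha, T3_rot]
      congr 1
      funext x z w
      rw [hsym]
    have hc : 3 * (2 * cons φ (cons φ (cons φ H)) s) =
        (T3 s fun x z w => f x z * f x w * Y x z w) +
        (T3 s fun x z w => f z w * f z x * Y x z w) +
        (T3 s fun x z w => f w x * f w z * Y x z w) := by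
      rw [← ha, ← hb, ← h2]; ring
    rw [hc, T3_add, T3_add]
    unfold T3
    refine sum_eq_zero fun x hx => sum_eq_zero fun z hz => sum_eq_zero fun w hw => ?_
    have hxz : x ≠ z := fun e => (mem_erase.1 hz).1 e.symm
    have hzw : z ≠ w := fun e => (mem_erase.1 hw).1 e.symm
    have hxw : x ≠ w := fun e => (mem_erase.1 (mem_erase.1 hw).2).1 e.symm
    have := cyc_id hxz hxw hzw
    linear_combination (Y x z w) * this
  linarith

/-- `h k y = (1 - y) y ^ k`. -/
noncomputable def h (k : ℕ) : ℝ → ℝ := fun y => (1 - y) * y ^ k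

/-- `[k+1] [k] = - h_k ^ 2`. -/
theorem e_e (k : ℕ) (H : El) (s : Finset ℝ) :
    cons (e (k + 1)) (cons (e k) H) s = - cons (h k) (cons (h k) H) s := by
  rw [cons_cons, cons_cons, ← neg_one_mul, ← cons2_smul]
  refine cons2_congr fun a ha b hb hab => ?_
  unfold e h f
  have h1 : b - a ≠ 0 := sub_ne_zero.2 hab.symm
  have e4 : a - b = -(b - a) := by ring
  rw [e4]
  field_simp
  ring

end Pool.Agent.X228.MV
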