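import Mathlib

/-!
# The shuffle model for the monotone triangle polynomial: definitions

`F w s` is the shuffle product of the one-variable functions in the list `w`, evaluated at the set
`s` of nodes: the sum over all bijections between the letters of `w` and the nodes of the product
of the values of the letters and of the kernels `f x y`, `x` before `y`.
-/

namespace Pool.Agent.X228.MV

open Finset

/-- The kernel. -/
noncomputable def f (a b : ℝ) : ℝ := (1 - a + a * b) / (b - a)

/-- The shuffle product of the letters of `w`, evaluated at the set `s` of nodes. -/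
noncomputable def F : List (ℝ → ℝ) → Finset ℝ → ℝ
  | [], s => if s = ∅ then 1 else 0
  | φ :: w, s => ∑ x ∈ s, φ x * (∏ y ∈ s.erase x, f x y) * F w (s.erase x)

/-- The power function. -/
noncomputable def e (k : ℕ) : ℝ → ℝ := fun y => y ^ k

/-- `q y = y ^ 2 - y`. -/
noncomputable def q : ℝ → ℝ := fun y => y ^ 2 - y

/-- The word `[2m-2]^2 [2m-4]^2 ... [0]^2`. -/
noncomputable def Wt : ℕ → List (ℝ → ℝ)
  | 0 => []
  | m + 1 => e (2 * m) :: e (2 * m) :: Wt m

/-- The word of the letters `y ^ (2 i) q ^ m`, `i < r`. -/
noncomputable def Tail (m r : ℕ) : List (ℝ → ℝ) :=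
  (List.range r).map fun i => fun y => y ^ (2 * i) * q y ^ m

end Pool.Agent.X228.MV
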