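import Pool.Agent.X228.MV.Wheel

/-!
# The shuffle model: dependence on one node
-/

namespace Pool.Agent.X228.MV

open Finset Polynomial

/-- The letters given by polynomials. -/
noncomputable def ev (w : List ℝ[X]) : List (ℝ → ℝ) := w.map fun P x => P.eval x

theorem ev_cons (φ : ℝ[X]) (w : List ℝ[X]) : ev (φ :: w) = (fun x => φ.eval x) :: ev w := rfl

/-- `F w (insert t s) * ∏ (t - y)` as a polynomial in `t`. -/
noncomputable def Np : List ℝ[X] → Finset ℝ → ℝ[X]
  | [], _ => 0
  | φ :: w, s => φ * (∏ y ∈ s, (-(1 - X + X * C y))) * C (F (ev w) s) +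
      ∑ x ∈ s, C (φ.eval x * ∏ y ∈ s.erase x, f x y) * (C (1 - x) + C x * X) * Np w (s.erase x)

theorem Np_eval (w : List ℝ[X]) (s : Finset ℝ) {t : ℝ} (ht : t ∉ s) :
    (Np w s).eval t = F (ev w) (insert t s) * ∏ y ∈ s, (t - y) := by
  induction w generalizing s with
  | nil => simp [Np, ev, F_nil]
  | cons φ w ih =>
    rw [ev_cons, F_cons]
    unfold cons
    rw [sum_insert ht, erase_insert ht, add_mul, sum_mul, Np, eval_add, eval_finsetSum]
    congr 1
    · rw [eval_mul, eval_mul, eval_prod, eval_C]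
      have : ∏ y ∈ s, (-(1 - X + X * C y) : ℝ[X]).eval t =
          (∏ y ∈ s, f t y) * ∏ y ∈ s, (t - y) := by
        rw [← prod_mul_distrib]
        refine prod_congr rfl fun y hy => ?_
        have h1 : y - t ≠ 0 := sub_ne_zero.2 fun h => ht (h ▸ hy)
        have h2 : t - y = -(y - t) := by ring
        unfold f
        rw [h2]
        simp only [eval_neg, eval_add, eval_sub, eval_one, eval_X, eval_mul, eval_C]
        field_simp
      rw [this]
      ring
    · refine sum_congr rfl fun x hx => ?_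
      have hxt : t ≠ x := fun h => ht (h ▸ hx)
      have ht' : t ∉ s.erase x := fun h => ht (mem_of_mem_erase h)
      rw [eval_mul, ih _ ht', erase_insert_of_ne hxt, prod_insert ht',
        ← mul_prod_erase s (fun y => t - y) hx]
      have h1 : t - x ≠ 0 := sub_ne_zero.2 hxt
      have h3 : f x t * (t - x) = 1 - x + x * t := by
        unfold f
        field_simp
      simp only [eval_mul, eval_add, eval_C, eval_X]
      rw [← h3]
      ring

theorem Np_zero (w : List ℝ[X]) (s : Finset ℝ) {t : ℝ} (ht : t ∈ s) : (Np w s).eval t = 0 := by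
  induction w generalizing s with
  | nil => simp [Np]
  | cons φ w ih =>
    rw [Np, eval_add, eval_finsetSum, ← add_sum_erase s _ ht]
    have h0 : ∑ x ∈ s.erase t, eval t (C (φ.eval x * ∏ y ∈ s.erase x, f x y) *
        (C (1 - x) + C x * X) * Np w (s.erase x)) = 0 := by
      refine sum_eq_zero fun x hx => ?_
      rw [eval_mul, ih _ (mem_erase.2 ⟨fun h => (mem_erase.1 hx).1 h.symm, ht⟩), mul_zero]
    rw [h0, add_zero]
    have h1 : t ∉ s.erase t := notMem_erase t s
    rw [eval_mul, eval_mul, eval_prod, eval_C, eval_mul, Np_eval w _ h1, insert_erase ht,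
      ← mul_prod_erase s _ ht]
    have h2 : ∏ y ∈ s.erase t, eval t (-(1 - X + X * C y) : ℝ[X]) =
        (∏ y ∈ s.erase t, f t y) * ∏ y ∈ s.erase t, (t - y) := by
      rw [← prod_mul_distrib]
      refine prod_congr rfl fun y hy => ?_
      have h1 : y - t ≠ 0 := sub_ne_zero.2 (mem_erase.1 hy).1
      have h2 : t - y = -(y - t) := by ring
      unfold f
      rw [h2]
      simp only [eval_neg, eval_add, eval_sub, eval_one, eval_X, eval_mul, eval_C]
      field_simp
    rw [h2]
    simp only [eval_mul, eval_add, eval_C, eval_X, eval_neg, eval_sub, eval_one]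
    ring

theorem Np_deg {d : ℕ} (w : List ℝ[X]) (hw : ∀ φ ∈ w, φ.natDegree ≤ d) (s : Finset ℝ) :
    (Np w s).natDegree ≤ d + s.card := by
  induction w generalizing s with
  | nil => simp [Np]
  | cons φ w ih =>
    rw [Np]
    refine (natDegree_add_le _ _).trans (max_le ?_ ?_)
    · refine (natDegree_mul_le).trans ?_
      rw [natDegree_C, add_zero]
      refine (natDegree_mul_le).trans ?_
      refine Nat.add_le_add (hw φ (by simp)) ?_
      refine (natDegree_prod_le _ _).trans ?_
      refine (sum_le_card_nsmul s _ 1 fun y _ => ?_).trans (by simp)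
      rw [natDegree_neg]
      have : (1 - X + X * C y : ℝ[X]) = C (y - 1) * X + C 1 := by
        simp only [C_sub, C_1]; ring
      rw [this]
      exact natDegree_linear_le
    · refine natDegree_sum_le_of_forall_le _ _ fun x hx => ?_
      refine (natDegree_mul_le).trans ?_
      have h1 := ih (fun φ hφ => hw φ (by simp [hφ])) (s.erase x)
      have h2 : (C (φ.eval x * ∏ y ∈ s.erase x, f x y) * (C (1 - x) + C x * X) : ℝ[X]).natDegree
          ≤ 1 := by
        refine (natDegree_mul_le).trans ?_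
        rw [natDegree_C, zero_add, add_comm]
        exact natDegree_linear_le
      have h3 : (s.erase x).card + 1 = s.card := card_erase_add_one hx
      omega

theorem F_card (w : List (ℝ → ℝ)) (s : Finset ℝ) (h : s.card ≠ w.length) : F w s = 0 := by
  induction w generalizing s with
  | nil =>
    rw [F_nil]
    have : s ≠ ∅ := by rintro rfl; simp at h
    simp [this]
  | cons φ w ih =>
    rw [F_cons]
    unfold cons
    refine sum_eq_zero fun x hx => ?_
    rw [ih _ ?_, mul_zero]
    intro h'
    apply h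
    have h3 : (s.erase x).card + 1 = s.card := card_erase_add_one hx
    simp only [List.length_cons]
    omega

/-- Expansion along the last letter. -/
theorem F_append (w : List (ℝ → ℝ)) (φ : ℝ → ℝ) (s : Finset ℝ) :
    F (w ++ [φ]) s = ∑ x ∈ s, φ x * (∏ y ∈ s.erase x, f y x) * F w (s.erase x) := by
  induction w generalizing s with
  | nil =>
    rw [List.nil_append, F_cons]
    unfold cons
    refine sum_congr rfl fun x hx => ?_
    rw [F_nil]
    by_cases h : s.erase x = ∅
    · simp [h]
    · simp [h]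
  | cons ψ w ih =>
    rw [List.cons_append, F_cons]
    unfold cons
    have e1 : ∀ x ∈ s, ψ x * (∏ y ∈ s.erase x, f x y) * F (w ++ [φ]) (s.erase x) =
        ∑ z ∈ s.erase x, φ z * ψ x * f x z * ((∏ y ∈ (s.erase x).erase z, f x y) *
          (∏ y ∈ (s.erase x).erase z, f y z)) * F w ((s.erase x).erase z) := by
      intro x hx
      rw [ih, mul_sum]
      refine sum_congr rfl fun z hz => ?_
      rw [← mul_prod_erase (s.erase x) (f x) hz]
      ring
    have e2 : ∀ z ∈ s, φ z * (∏ y ∈ s.erase z, f y z) * F (ψ :: w) (s.erase z) =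
        ∑ x ∈ s.erase z, φ z * ψ x * f x z * ((∏ y ∈ (s.erase x).erase z, f x y) *
          (∏ y ∈ (s.erase x).erase z, f y z)) * F w ((s.erase x).erase z) := by
      intro z hz
      rw [F_cons]
      unfold cons
      rw [mul_sum]
      refine sum_congr rfl fun x hx => ?_
      rw [← mul_prod_erase (s.erase z) (fun y => f y z) hx, erase_right_comm (a := z) (b := x)]
      ring
    rw [sum_congr rfl e1, sum_congr rfl e2, sum_comm' (t' := s) (s' := fun x => s.erase x)]
    intro x y
    simp only [mem_erase]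
    constructor
    · rintro ⟨h1, h2, h3⟩; exact ⟨⟨fun h => h2 h.symm, h1⟩, h3⟩
    · rintro ⟨⟨h1, h2⟩, h3⟩; exact ⟨h2, fun h => h1 h.symm, h3⟩

theorem DW (m : ℕ) (s : Finset ℝ) :
    F (Dt (2 * m)) s = (-1) ^ m * ((∏ x ∈ s, (1 - x)) * F (Wt m) s) := by
  induction m generalizing s with
  | zero =>
    have := congrFun (mulG_nil fun x => 1 - x) s
    unfold mulG at this
    rw [show Dt (2 * 0) = [] from rfl, show Wt 0 = [] from rfl, this]
    ring
  | succ m ih =>
    have e0 : F (Dt (2 * m)) = fun t => (-1) ^ m * mulG (fun x => 1 - x) (F (Wt m)) t :=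
      funext fun t => ih t
    have e1 : ∀ t, cons (h (2 * m)) (F (Dt (2 * m))) t =
        (-1) ^ m * mulG (fun x => 1 - x) (cons (e (2 * m)) (F (Wt m))) t := by
      intro t
      rw [e0, cons_smul, mulG_cons]
      rfl
    rw [show 2 * (m + 1) = 2 * m + 1 + 1 by ring, show Dt (2 * m + 1 + 1) =
      e (2 * m + 1) :: e (2 * m) :: Dt (2 * m) from rfl, F_cons, F_cons, e_e, funext e1, cons_smul,
      show Wt (m + 1) = e (2 * m) :: e (2 * m) :: Wt m from rfl, F_cons, F_cons]
    have e2 := mulG_cons (fun x => 1 - x) (e (2 * m)) (cons (e (2 * m)) (F (Wt m))) s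
    have e3 : cons (h (2 * m)) (mulG (fun x => 1 - x) (cons (e (2 * m)) (F (Wt m)))) s =
      cons (fun x => (1 - x) * e (2 * m) x) (mulG (fun x => 1 - x)
        (cons (e (2 * m)) (F (Wt m)))) s := rfl
    rw [e3, ← e2]
    unfold mulG
    ring

theorem LW1 {p : ℝ} (hp0 : p ≠ 0) (hp1 : p ≠ 1) (m : ℕ) (s : Finset ℝ) (hps : p ∉ s)
    (hts : tau p ∉ s) (h1s : (1 : ℝ) ∉ s) :
    F (Wt (m + 1)) (insert (tau p) (insert p s)) =
      (p - 1) ^ (2 * m) * ((∏ x ∈ s, Ph p x) * F (Wt m) s) := by
  have h0 := LD hp0 hp1 (2 * m) s hps hts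
  have htp := tau_ne hp0
  have hti : tau p ∉ insert p s := by simp [htp, hts]
  rw [show 2 * m + 2 = 2 * (m + 1) by ring, DW, DW, prod_insert hti, prod_insert hps] at h0
  have h2 : ∏ x ∈ s, (1 - x) ≠ 0 := prod_ne_zero_iff.2 fun x hx =>
    sub_ne_zero.2 fun h => h1s (h ▸ hx)
  have hp2 : p - 1 ≠ 0 := sub_ne_zero.2 hp1
  have h3 : tau p ≠ 0 := by
    unfold tau
    rw [show 1 - 1 / p = (p - 1) / p by field_simp]
    exact div_ne_zero hp2 hp0
  have h4 : (1 - tau p) * (1 - p) = - tau p := by
    unfold tau; field_simp; ring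
  have h5 : ((-1 : ℝ)) ^ m ≠ 0 := pow_ne_zero _ (by norm_num)
  have h6 : ((-1) ^ m * tau p * ∏ x ∈ s, (1 - x)) ≠ 0 := mul_ne_zero (mul_ne_zero h5 h3) h2
  apply mul_left_cancel₀ h6
  calc ((-1) ^ m * tau p * ∏ x ∈ s, (1 - x)) * F (Wt (m + 1)) (insert (tau p) (insert p s))
      = (-1) ^ (m + 1) * ((1 - tau p) * ((1 - p) * ∏ x ∈ s, (1 - x)) *
          F (Wt (m + 1)) (insert (tau p) (insert p s))) := by
        rw [pow_succ]
        linear_combination ((-1) ^ m * (∏ x ∈ s, (1 - x)) *
          F (Wt (m + 1)) (insert (tau p) (insert p s))) * h4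
    _ = _ := by rw [h0]; ring

end Pool.Agent.X228.MV
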