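import Pool.Agent.X228.MV.Alg

/-!
# The shuffle model: evaluation at the pair of nodes `1 - 1 / p`, `p`
-/

namespace Pool.Agent.X228.MV

open Finset

/-- The word `[m-1] [m-2] ... [0]`. -/
noncomputable def Dt : ℕ → List (ℝ → ℝ)
  | 0 => []
  | m + 1 => e m :: Dt m

/-- The involution-like map `p ↦ 1 - 1 / p` of order three. -/
noncomputable def tau (p : ℝ) : ℝ := 1 - 1 / p

/-- The multiplier `1 - q(x) / q(p)`. -/
noncomputable def mu (p : ℝ) : ℝ → ℝ := fun x => 1 - q x / q p

theorem mulG_nil (g : ℝ → ℝ) : mulG g (F []) = F [] := by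
  funext s
  rw [F_nil]
  unfold mulG
  by_cases hs : s = ∅
  · simp [hs]
  · simp [hs]

theorem h_h_mu (p : ℝ) (j : ℕ) (s : Finset ℝ) :
    cons (h j) (cons (h j) (mulG (mu p) (F (Dt j)))) s =
      cons (h j) (cons (h j) (F (Dt j))) s := by
  induction j generalizing s with
  | zero => rw [show Dt 0 = [] from rfl, mulG_nil]
  | succ j ih =>
    have e1 : mulG (mu p) (F (Dt (j + 1))) = fun t =>
        1 * cons (e j) (mulG (mu p) (F (Dt j))) t +
        (1 / q p) * cons (h (j + 1)) (mulG (mu p) (F (Dt j))) t := by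
      funext t
      rw [show Dt (j + 1) = e j :: Dt j from rfl, F_cons, mulG_cons, ← cons_lin]
      refine cons_congr (fun x _ => ?_) fun x _ => rfl
      unfold mu e h q
      ring
    have e2 : cons (h (j + 1)) (cons (h (j + 1)) (mulG (mu p) (F (Dt (j + 1))))) s =
        cons (h (j + 1)) (cons (h (j + 1)) (cons (e j) (mulG (mu p) (F (Dt j))))) s := by
      have e3 : cons (h (j + 1)) (mulG (mu p) (F (Dt (j + 1)))) = fun t =>
          1 * cons (h (j + 1)) (cons (e j) (mulG (mu p) (F (Dt j)))) t +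
          (1 / q p) * cons (h (j + 1)) (cons (h (j + 1)) (mulG (mu p) (F (Dt j)))) t := by
        funext t
        rw [e1]
        rw [cons_add (h (j + 1)) (fun t => 1 * cons (e j) (mulG (mu p) (F (Dt j))) t)
          (fun t => (1 / q p) * cons (h (j + 1)) (mulG (mu p) (F (Dt j))) t) t, cons_smul, cons_smul]
      rw [e3, cons_add (h (j + 1))
        (fun t => 1 * cons (h (j + 1)) (cons (e j) (mulG (mu p) (F (Dt j)))) t)
        (fun t => (1 / q p) * cons (h (j + 1)) (cons (h (j + 1)) (mulG (mu p) (F (Dt j)))) t) s,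
        cons_smul, cons_smul, cube]
      ring
    have e4 : ∀ G : El, cons (h (j + 1)) (cons (h (j + 1)) (cons (e j) G)) s =
        cons (e (j + 2)) (fun t => cons (h j) (cons (h j) G) t) s := by
      intro G
      have := e_e (j + 1) (cons (e j) G) s
      have h5 : cons (e (j + 1 + 1)) (cons (e (j + 1)) (cons (e j) G)) s =
          cons (e (j + 2)) (fun t => -1 * cons (h j) (cons (h j) G) t) s := by
        refine cons_congr (fun x _ => rfl) fun x _ => ?_
        rw [e_e]; ring
      rw [cons_smul] at h5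
      linarith
    rw [e2, e4, show Dt (j + 1) = e j :: Dt j from rfl, F_cons, e4]
    exact cons_congr (fun x _ => rfl) fun x _ => ih _

/-- The multiplier of the letters before both nodes. -/
noncomputable def al (p : ℝ) : ℝ → ℝ := fun x => (p - x) / (1 - p + p * x)

/-- The multiplier of the letters between the nodes. -/
noncomputable def be (p : ℝ) : ℝ → ℝ := fun x => -(1 - x + x * p) / (1 - p + p * x)

/-- `Dt m` with one more node `p`, divided by the kernels. -/
noncomputable def Z (p : ℝ) : ℕ → El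
  | 0 => fun _ => 0
  | m + 1 => fun s => cons (fun x => be p x * x ^ m) (Z p m) s + p ^ m * F (Dt m) s

/-- `Dt m` with two more nodes, divided by the kernels. -/
noncomputable def Sg (p : ℝ) : ℕ → El
  | 0 => fun _ => 0
  | m + 1 => fun s => cons (fun x => al p x * x ^ m) (Sg p m) s + tau p ^ m * Z p m s

theorem cons_zero (φ : ℝ → ℝ) (s : Finset ℝ) : cons φ (fun _ => 0) s = 0 := by
  simp [cons]

theorem Z_one (p : ℝ) (s : Finset ℝ) : Z p 1 s = F [] s := by
  have : Z p 1 s = cons (fun x => be p x * x ^ 0) (fun _ => 0) s + p ^ 0 * F (Dt 0) s := rfl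
  rw [this, cons_zero]
  simp [Dt]

theorem Z_two {p : ℝ} (s : Finset ℝ) (hs : ∀ x ∈ s, 1 - p + p * x ≠ 0) :
    Z p 2 s = cons (fun x => -(p - 1) * (al p x * h 0 x)) (F []) s := by
  have e1 : Z p 2 s = cons (fun x => be p x * x ^ 1) (Z p 1) s + p ^ 1 * F (Dt 1) s := rfl
  have e2 : Z p 1 = F [] := funext (Z_one p)
  have e3 : F (Dt 1) = cons (e 0) (F []) := F_cons _ _
  rw [e1, e2, e3, pow_one, ← one_mul (cons (fun x => be p x * x ^ 1) (F []) s), ← cons_lin]
  refine cons_congr (fun x hx => ?_) fun x _ => rfl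
  have := hs x hx
  unfold be al h e
  generalize hA : 1 - p + p * x = A at this ⊢
  field_simp
  rw [← hA]
  ring

theorem ZC {p : ℝ} (hp0 : p ≠ 0) (hp1 : p ≠ 1) (j : ℕ) (s : Finset ℝ)
    (hs : ∀ x ∈ s, 1 - p + p * x ≠ 0) :
    Z p (j + 2) s = cons (fun x => -(p - 1) * p ^ j * (al p x * h j x))
      (mulG (mu p) (F (Dt j))) s := by
  induction j generalizing s with
  | zero =>
    rw [Z_two s hs, show Dt 0 = [] from rfl, mulG_nil]
    exact cons_congr (fun x _ => by ring) fun x _ => rfl
  | succ j ih =>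
    have hp2 : p - 1 ≠ 0 := sub_ne_zero.2 hp1
    have e1 : Z p (j + 1 + 2) s = cons (fun x => be p x * x ^ (j + 2)) (Z p (j + 2)) s +
        p ^ (j + 2) * F (Dt (j + 2)) s := rfl
    have e2 : cons (fun x => be p x * x ^ (j + 2)) (Z p (j + 2)) s =
        cons2 (fun a b => (be p a * a ^ (j + 2)) * (-(p - 1) * p ^ j * (al p b * h j b)))
          (mulG (mu p) (F (Dt j))) s := by
      rw [← cons_cons]
      exact cons_congr (fun x _ => rfl) fun x _ => ih _ fun y hy => hs y (mem_of_mem_erase hy)
    have e3 : F (Dt (j + 2)) s = cons2 (fun a b => -1 * (h j a * h j b))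
        (mulG (mu p) (F (Dt j))) s := by
      rw [show Dt (j + 2) = e (j + 1) :: e j :: Dt j from rfl, F_cons, F_cons, e_e, ← h_h_mu p,
        cons2_smul, ← cons_cons]
      ring
    have e4 : cons (fun x => -(p - 1) * p ^ (j + 1) * (al p x * h (j + 1) x))
        (mulG (mu p) (F (Dt (j + 1)))) s =
        cons2 (fun a b => (-(p - 1) * p ^ (j + 1) * (al p a * h (j + 1) a)) * (mu p b * e j b))
          (mulG (mu p) (F (Dt j))) s := by
      rw [← cons_cons]
      refine cons_congr (fun x _ => rfl) fun x _ => ?_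
      rw [show Dt (j + 1) = e j :: Dt j from rfl, F_cons, mulG_cons]
    rw [e1, e2, e3, e4, ← one_mul (cons2 _ _ s), ← cons2_lin]
    refine cons2_congr fun a ha b hb hab => ?_
    have h1 : b - a ≠ 0 := sub_ne_zero.2 hab.symm
    have h2 : a - b = -(b - a) := by ring
    have h3 := hs a ha
    have h4 := hs b hb
    unfold mu al be h e f q
    rw [h2]
    have h5 : p ^ 2 - p ≠ 0 := by
      rw [show p ^ 2 - p = p * (p - 1) by ring]; exact mul_ne_zero hp0 hp2
    have h6 : p ^ (j + 1) = p * p ^ j := by ring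
    have h7 : p ^ (j + 2) = p ^ 2 * p ^ j := by ring
    have h8 : a ^ (j + 1) = a * a ^ j := by ring
    have h9 : a ^ (j + 2) = a ^ 2 * a ^ j := by ring
    have h10 : b ^ (j + 1) = b * b ^ j := by ring
    have h11 : b ^ (j + 2) = b ^ 2 * b ^ j := by ring
    rw [h6, h7, h8, h9, h10, h11]
    generalize p ^ j = P
    generalize a ^ j = A
    generalize b ^ j = B
    generalize hU : 1 - p + p * a = U at h3 ⊢
    generalize hV : 1 - p + p * b = V at h4 ⊢
    field_simp
    rw [← hU, ← hV]
    ring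

theorem SC {p : ℝ} (hp0 : p ≠ 0) (hp1 : p ≠ 1) (j : ℕ) (s : Finset ℝ)
    (hs : ∀ x ∈ s, 1 - p + p * x ≠ 0) :
    Sg p (j + 2) s = tau p * (p - 1) ^ j * mulG (mu p) (F (Dt j)) s := by
  have hp2 : p - 1 ≠ 0 := sub_ne_zero.2 hp1
  induction j generalizing s with
  | zero =>
    have e1 : Sg p 2 s = cons (fun x => al p x * x ^ 1) (Sg p 1) s + tau p ^ 1 * Z p 1 s := rfl
    have e2 : Sg p 1 = fun _ => 0 := by
      funext t
      have : Sg p 1 t = cons (fun x => al p x * x ^ 0) (fun _ => 0) t + tau p ^ 0 * Z p 0 t := rfl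
      rw [this, cons_zero, show Z p 0 t = 0 from rfl]
      ring
    rw [e1, e2, cons_zero, Z_one, show Dt 0 = [] from rfl, mulG_nil]
    ring
  | succ j ih =>
    have e1 : Sg p (j + 1 + 2) s = cons (fun x => al p x * x ^ (j + 2)) (Sg p (j + 2)) s +
        tau p ^ (j + 2) * Z p (j + 2) s := rfl
    have e2 : cons (fun x => al p x * x ^ (j + 2)) (Sg p (j + 2)) s =
        tau p * (p - 1) ^ j * cons (fun x => al p x * x ^ (j + 2)) (mulG (mu p) (F (Dt j))) s := by
      rw [← cons_smul]
      exact cons_congr (fun x _ => rfl) fun x _ => ih _ fun y hy => hs y (mem_of_mem_erase hy)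
    rw [e1, e2, ZC hp0 hp1 j s hs, ← cons_lin, show Dt (j + 1) = e j :: Dt j from rfl, F_cons,
      mulG_cons]
    have e5 : tau p * (p - 1) ^ (j + 1) * cons (fun x => mu p x * e j x) (mulG (mu p) (F (Dt j))) s
        = (tau p * (p - 1) ^ (j + 1)) * cons (fun x => mu p x * e j x)
          (mulG (mu p) (F (Dt j))) s + 0 * cons (fun x => mu p x * e j x)
          (mulG (mu p) (F (Dt j))) s := by ring
    rw [e5, ← cons_lin]
    refine cons_congr (fun x hx => ?_) fun x _ => rfl
    have h3 := hs x hx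
    have h5 : p ^ 2 - p ≠ 0 := by
      rw [show p ^ 2 - p = p * (p - 1) by ring]; exact mul_ne_zero hp0 hp2
    have h12 : tau p ^ (j + 2) * p ^ j = tau p ^ 2 * (p - 1) ^ j := by
      have : tau p * p = p - 1 := by unfold tau; field_simp
      rw [← this, mul_pow]; ring
    have h13 : tau p ^ (j + 2) * (-(p - 1) * p ^ j * (al p x * h j x)) =
        tau p ^ 2 * (p - 1) ^ j * (-(p - 1) * (al p x * h j x)) := by
      rw [← h12]; ring
    rw [h13]
    unfold tau mu al h e q
    have h6 : (p - 1) ^ (j + 1) = (p - 1) * (p - 1) ^ j := by ring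
    have h9 : x ^ (j + 2) = x ^ 2 * x ^ j := by ring
    rw [h6, h9]
    generalize (p - 1) ^ j = P
    generalize x ^ j = A
    generalize hU : 1 - p + p * x = U at h3 ⊢
    field_simp
    rw [← hU]
    ring

theorem f_tau_p {p : ℝ} (hp0 : p ≠ 0) : f (tau p) p = 1 := by
  unfold f tau
  have h1 : p - (1 - 1 / p) ≠ 0 := by
    have : p * (p - (1 - 1 / p)) = p ^ 2 - p + 1 := by field_simp; ring
    intro h
    rw [h] at this
    nlinarith [sq_nonneg (p - 1 / 2)]
  rw [div_eq_one_iff_eq h1]
  field_simp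
  ring

theorem f_p_tau {p : ℝ} (hp0 : p ≠ 0) : f p (tau p) = 0 := by
  unfold f tau
  rw [div_eq_zero_iff]
  left
  field_simp
  ring

theorem tau_ne {p : ℝ} (hp0 : p ≠ 0) : tau p ≠ p := by
  intro h
  have : p * (p - tau p) = p ^ 2 - p + 1 := by unfold tau; field_simp; ring
  rw [h] at this
  nlinarith [sq_nonneg (p - 1 / 2)]

theorem den_ne {p x : ℝ} (hp0 : p ≠ 0) (hx : x ≠ tau p) : 1 - p + p * x ≠ 0 := by
  intro h
  apply hx
  unfold tau
  field_simp
  linarith

theorem C1 {p : ℝ} (hp0 : p ≠ 0) (m : ℕ) (s : Finset ℝ) (hps : p ∉ s) (hts : tau p ∉ s) :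
    F (Dt m) (insert p s) = (∏ x ∈ s, f p x) * Z p m s := by
  induction m generalizing s with
  | zero =>
    rw [show Dt 0 = [] from rfl, F_nil, show Z p 0 s = 0 from rfl]
    simp
  | succ m ih =>
    have e1 : Z p (m + 1) s = cons (fun x => be p x * x ^ m) (Z p m) s + p ^ m * F (Dt m) s := rfl
    rw [e1, show Dt (m + 1) = e m :: Dt m from rfl, F_cons]
    unfold cons
    rw [sum_insert hps, erase_insert hps, mul_add, mul_sum, add_comm]
    congr 1
    · refine sum_congr rfl fun x hx => ?_
      have hxp : x ≠ p := fun h => hps (h ▸ hx)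
      have hxt : x ≠ tau p := fun h => hts (h ▸ hx)
      rw [erase_insert_of_ne hxp.symm, prod_insert (fun h => hps (mem_of_mem_erase h)),
        ih _ (fun h => hps (mem_of_mem_erase h)) (fun h => hts (mem_of_mem_erase h)),
        ← mul_prod_erase s (f p) hx]
      have h3 := den_ne hp0 hxt
      have h4 : f x p = be p x * f p x := by
        unfold f be
        have h1 : x - p ≠ 0 := sub_ne_zero.2 hxp
        have h2 : p - x = -(x - p) := by ring
        rw [h2]
        generalize hU : 1 - p + p * x = U at h3 ⊢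
        field_simp
      rw [h4]
      unfold e
      ring
    · unfold e
      ring

theorem C2 {p : ℝ} (hp0 : p ≠ 0) (m : ℕ) (s : Finset ℝ) (hps : p ∉ s) (hts : tau p ∉ s) :
    F (Dt m) (insert (tau p) (insert p s)) = (∏ x ∈ s, (f (tau p) x * f p x)) * Sg p m s := by
  have htp := tau_ne hp0
  have hti : tau p ∉ insert p s := by simp [htp, hts]
  induction m generalizing s with
  | zero =>
    rw [show Dt 0 = [] from rfl, F_nil, show Sg p 0 s = 0 from rfl]
    simp
  | succ m ih =>
    have e1 : Sg p (m + 1) s = cons (fun x => al p x * x ^ m) (Sg p m) s +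
      tau p ^ m * Z p m s := rfl
    rw [e1, show Dt (m + 1) = e m :: Dt m from rfl, F_cons]
    unfold cons
    rw [sum_insert hti, erase_insert hti, sum_insert hps, prod_insert hps, f_tau_p hp0, one_mul,
      C1 hp0 m s hps hts]
    have hpe : (insert (tau p) (insert p s)).erase p = insert (tau p) s := by
      rw [erase_insert_of_ne htp, erase_insert hps]
    rw [hpe, prod_insert hts, f_p_tau hp0]
    simp only [zero_mul, mul_zero, zero_add]
    rw [mul_add, mul_sum, add_comm]
    congr 1
    · refine sum_congr rfl fun x hx => ?_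
      have hxp : x ≠ p := fun h => hps (h ▸ hx)
      have hxt : x ≠ tau p := fun h => hts (h ▸ hx)
      have hi1 : p ∉ s.erase x := fun h => hps (mem_of_mem_erase h)
      have hi2 : tau p ∉ s.erase x := fun h => hts (mem_of_mem_erase h)
      have hi3 : tau p ∉ insert p (s.erase x) := by simp [htp, hi2]
      rw [erase_insert_of_ne hxt.symm, erase_insert_of_ne hxp.symm, prod_insert hi3,
        prod_insert hi1, ih _ hi1 hi2 hi3, ← mul_prod_erase s (fun x => f (tau p) x * f p x) hx]
      have h3 := den_ne hp0 hxt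
      have h4 : f x (tau p) * f x p = al p x * (f (tau p) x * f p x) := by
        unfold f al tau
        have h1 : x - p ≠ 0 := sub_ne_zero.2 hxp
        have h2 : p - x = -(x - p) := by ring
        have h5 : x - (1 - 1 / p) = (1 - p + p * x) / p := by field_simp; ring
        have h6 : (1 - 1 / p) - x = -((1 - p + p * x) / p) := by field_simp; ring
        rw [h2, h5, h6]
        generalize hU : 1 - p + p * x = U at h3 ⊢
        field_simp
        ring
      unfold e
      linear_combination (x ^ m * (∏ y ∈ s.erase x, f x y) *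
        ((∏ y ∈ s.erase x, (f (tau p) y * f p y)) * Sg p m (s.erase x))) * h4
    · unfold e
      rw [prod_mul_distrib]
      ring

/-- The multiplier in the factorisation at the pair `tau p`, `p`. -/
noncomputable def Ph (p : ℝ) : ℝ → ℝ := fun x => -((1 - x + x * p) * (x + p - 1)) / (p * (p - 1))

theorem LD {p : ℝ} (hp0 : p ≠ 0) (hp1 : p ≠ 1) (j : ℕ) (s : Finset ℝ) (hps : p ∉ s)
    (hts : tau p ∉ s) :
    F (Dt (j + 2)) (insert (tau p) (insert p s)) =
      tau p * (p - 1) ^ j * ((∏ x ∈ s, Ph p x) * F (Dt j) s) := by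
  rw [C2 hp0 _ s hps hts, SC hp0 hp1 j s fun x hx => den_ne hp0 fun h => hts (h ▸ hx)]
  unfold mulG
  have : ∏ x ∈ s, Ph p x = (∏ x ∈ s, (f (tau p) x * f p x)) * ∏ x ∈ s, mu p x := by
    rw [← prod_mul_distrib]
    refine prod_congr rfl fun x hx => ?_
    have hxp : x ≠ p := fun h => hps (h ▸ hx)
    have hxt : x ≠ tau p := fun h => hts (h ▸ hx)
    have h3 := den_ne hp0 hxt
    have h1 : x - p ≠ 0 := sub_ne_zero.2 hxp
    have hp2 : p - 1 ≠ 0 := sub_ne_zero.2 hp1
    have h7 : p ^ 2 - p = p * (p - 1) := by ring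
    have h5 : x - (1 - 1 / p) = (1 - p + p * x) / p := by field_simp; ring
    unfold Ph f mu tau q
    rw [h7, h5]
    have h8 : 1 - (1 - 1 / p) + (1 - 1 / p) * x = (1 - x + x * p) / p := by field_simp; ring
    rw [h8]
    generalize hU : 1 - p + p * x = U at h3 ⊢
    field_simp
    ring
  rw [this]
  ring

end Pool.Agent.X228.MV
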